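import Pool.Agent.W142.TF.Stm2
import Pool.Agent.W863.TF.Net
import Pool.Agent.W505.FN.NullS
import Pool.Agent.W975.FN.Trg

/-! Project TF (owner helper142), part ONE: at generic points a set may be replaced by its almost
periodic part (one mean). -/

set_option autoImplicit false
open Filter Topology Finset
open scoped BoundedContinuousFunction

namespace Pool.Agent.W91.TF

open Pool.Agent.W634.BQ Pool.Agent.W505.BQ Pool.Agent.W27.FB Pool.Agent.W142.TF

theorem prod_apply (S : Finset ℕ) (f : ℕ → (ℤ →ᵇ ℝ)) (t : ℤ) :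
    (∏ i ∈ S, f i) t = ∏ i ∈ S, f i t := by
  classical
  induction S using Finset.induction_on with
  | empty => simp
  | insert i S hi ih =>
    rw [prod_insert hi, prod_insert hi, BoundedContinuousFunction.coe_mul, Pi.mul_apply, ih]

theorem sh_mul (x : ℤ) (f g : ℤ →ᵇ ℝ) : sh x (f * g) = sh x f * sh x g := by
  ext n
  rfl

theorem sh_sub (x : ℤ) (f g : ℤ →ᵇ ℝ) : sh x (f - g) = sh x f - sh x g := by
  ext n
  rfl

theorem sh_prod (x : ℤ) (S : Finset ℕ) (f : ℕ → (ℤ →ᵇ ℝ)) :
    sh x (∏ i ∈ S, f i) = ∏ i ∈ S, sh x (f i) := by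
  ext n
  rw [prod_apply, sh_apply, prod_apply]
  rfl

theorem sh_sh (x y : ℤ) (f : ℤ →ᵇ ℝ) : sh x (sh y f) = sh (x + y) f := by
  ext n
  simp only [sh_apply]
  congr 1
  ring

theorem sh_zero (f : ℤ →ᵇ ℝ) : sh 0 f = f := by
  ext n
  simp

theorem trig_sh (s : ℤ) (f : ℤ →ᵇ ℂ) (hf : f ∈ Trig) : sh s f ∈ Trig := by
  unfold Trig at hf
  induction hf using Submodule.span_induction with
  | mem x hx =>
    obtain ⟨θ, rfl⟩ := hx
    have : sh s (chr θ) = ((θ ^ s : Circle) : ℂ) • chr θ := by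
      ext n
      show ((θ ^ (n + s) : Circle) : ℂ) = ((θ ^ s : Circle) : ℂ) * ((θ ^ n : Circle) : ℂ)
      rw [zpow_add, Circle.coe_mul, mul_comm]
    rw [this]
    exact Trig.smul_mem _ (Submodule.subset_span ⟨θ, rfl⟩)
  | zero =>
    have : sh s (0 : ℤ →ᵇ ℂ) = 0 := by
      ext n
      rfl
    rw [this]
    exact Trig.zero_mem
  | add y z _ _ hy hz =>
    have : sh s (y + z) = sh s y + sh s z := by
      ext n
      rfl
    rw [this]
    exact Trig.add_mem hy hz
  | smul c y _ hy =>
    have : sh s (c • y) = c • sh s y := by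
      ext n
      rfl
    rw [this]
    exact Trig.smul_mem c hy

theorem tr_sh {β : ℤ →ᵇ ℝ} (h : Tr01 β) (s : ℤ) : Tr01 (sh s β) := by
  refine ⟨?_, fun n => h.2 _⟩
  have : co (sh s β) = sh s (co β) := by
    ext n
    rfl
  rw [this]
  exact trig_sh s _ h.1

theorem tr_mul {β γ : ℤ →ᵇ ℝ} (h : Tr01 β) (h' : Tr01 γ) : Tr01 (β * γ) := by
  refine ⟨?_, fun n => ?_⟩
  · have : co (β * γ) = co β * co γ := by
      ext n
      rw [co_apply, BoundedContinuousFunction.coe_mul, BoundedContinuousFunction.coe_mul,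
        Pi.mul_apply, Pi.mul_apply, co_apply, co_apply]
      push_cast
      rfl
    rw [this]
    exact Pool.Agent.W975.FN.trg.2.1 _ _ h.1 h'.1
  · rw [BoundedContinuousFunction.coe_mul, Pi.mul_apply]
    exact ⟨mul_nonneg (h.2 n).1 (h'.2 n).1, mul_le_one₀ (h.2 n).2 (h'.2 n).1 (h'.2 n).2⟩

theorem net_re {β : ℤ →ᵇ ℝ} (h : Tr01 β) {δ : ℝ} (hδ : 0 < δ) :
    ∃ F : Finset ℤ, ∀ t : ℤ, ∃ s ∈ F, ∀ n : ℤ, |β (n + t) - β (n + s)| ≤ δ := by
  obtain ⟨F, hF⟩ := Pool.Agent.W863.TF.net (co β) h.1 δ hδ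
  refine ⟨F, fun t => ?_⟩
  obtain ⟨s, hs, h2⟩ := hF t
  refine ⟨s, hs, fun n => ?_⟩
  have h3 := h2 n
  rwa [co_apply, co_apply, ← Complex.ofReal_sub, Complex.norm_real, Real.norm_eq_abs] at h3

theorem net_prod {β P : ℤ →ᵇ ℝ} (hβ : Tr01 β) (hP : Tr01 P) (S : Finset ℕ) :
    ∀ δ : ℝ, 0 < δ → ∃ B : Set (ℤ →ᵇ ℝ), B.Finite ∧ (∀ b ∈ B, Tr01 b) ∧
      ∀ (x : ℤ) (y : ℕ → ℤ), ∃ b ∈ B, ∀ t, |(sh x β * ∏ i ∈ S, sh (y i) P) t - b t| ≤ δ := by
  classical
  induction S using Finset.induction_on with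
  | empty =>
    intro δ hδ
    obtain ⟨F, hF⟩ := net_re hβ hδ
    refine ⟨(fun s => sh s β) '' F, F.finite_toSet.image _, ?_, ?_⟩
    · rintro _ ⟨s, -, rfl⟩
      exact tr_sh hβ s
    · intro x y
      obtain ⟨s, hs, h⟩ := hF x
      refine ⟨sh s β, ⟨s, hs, rfl⟩, fun t => ?_⟩
      rw [prod_empty, mul_one, sh_apply, sh_apply]
      exact h t
  | insert i S hi ih =>
    intro δ hδ
    obtain ⟨B, hB, hB1, hB2⟩ := ih (δ / 2) (by positivity)
    obtain ⟨F, hF⟩ := net_re hP (show 0 < δ / 2 by positivity)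
    refine ⟨Set.image2 (fun b s => b * sh s P) B F, hB.image2 _ F.finite_toSet, ?_, ?_⟩
    · rintro _ ⟨b, hb, s, -, rfl⟩
      exact tr_mul (hB1 b hb) (tr_sh hP s)
    · intro x y
      obtain ⟨b, hb, h1⟩ := hB2 x y
      obtain ⟨s, hs, h2⟩ := hF (y i)
      refine ⟨b * sh s P, ⟨b, hb, s, hs, rfl⟩, fun t => ?_⟩
      have h3 := h1 t
      have h4 := h2 t
      have e1 : (sh x β * ∏ i ∈ insert i S, sh (y i) P) t =
          (sh x β * ∏ i ∈ S, sh (y i) P) t * P (t + y i) := by
        rw [prod_insert hi]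
        have : sh x β * (sh (y i) P * ∏ i ∈ S, sh (y i) P) =
            (sh x β * ∏ i ∈ S, sh (y i) P) * sh (y i) P := by ring
        rw [this, BoundedContinuousFunction.coe_mul _ (sh (y i) P), Pi.mul_apply, sh_apply]
      have e2 : (b * sh s P) t = b t * P (t + s) := by
        rw [BoundedContinuousFunction.coe_mul, Pi.mul_apply, sh_apply]
      rw [e1, e2]
      set u := (sh x β * ∏ i ∈ S, sh (y i) P) t
      have hb01 := (hB1 b hb).2 t
      have hp01 := hP.2 (t + y i)
      have e3 : u * P (t + y i) - b t * P (t + s) =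
          (u - b t) * P (t + y i) + b t * (P (t + y i) - P (t + s)) := by ring
      rw [e3]
      refine (abs_add_le _ _).trans ?_
      rw [abs_mul, abs_mul, abs_of_nonneg hp01.1, abs_of_nonneg hb01.1]
      have k1 : |u - b t| * P (t + y i) ≤ δ / 2 * 1 :=
        mul_le_mul h3 hp01.2 hp01.1 (by positivity)
      have k2 : b t * |P (t + y i) - P (t + s)| ≤ 1 * (δ / 2) :=
        mul_le_mul hb01.2 h4 (abs_nonneg _) zero_le_one
      linarith

theorem null_mul {N : Set ℤ} (hN : Null N) {c : ℕ} (hc : 1 ≤ c) :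
    Null {x : ℤ | (c : ℤ) * x ∈ N} := by
  intro ε hε
  have hc' : (0 : ℝ) < c := by exact_mod_cast hc
  obtain ⟨L0, h0⟩ := hN (ε / c) (by positivity)
  refine ⟨L0, fun L hL u => ?_⟩
  have h1 := h0 (c * L) (hL.trans (Nat.le_mul_of_pos_left L hc)) (c * u)
  have h2 : {n : ℕ | n < L ∧ u + (n : ℤ) ∈ {x : ℤ | (c : ℤ) * x ∈ N}}.ncard ≤
      {n : ℕ | n < c * L ∧ (c : ℤ) * u + (n : ℤ) ∈ N}.ncard := by
    have hfin : {n : ℕ | n < c * L ∧ (c : ℤ) * u + (n : ℤ) ∈ N}.Finite :=
      (Set.finite_lt_nat (c * L)).subset fun _ h => h.1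
    refine Set.ncard_le_ncard_of_injOn (fun n => c * n) ?_ ?_ hfin
    · rintro n ⟨hn, hn'⟩
      refine ⟨Nat.mul_lt_mul_of_pos_left hn hc, ?_⟩
      have e : (c : ℤ) * u + ((c * n : ℕ) : ℤ) = c * (u + n) := by push_cast; ring
      rw [e]
      exact hn'
    · intro a _ b _ hab
      exact Nat.eq_of_mul_eq_mul_left hc hab
  calc ({n : ℕ | n < L ∧ u + (n : ℤ) ∈ {x : ℤ | (c : ℤ) * x ∈ N}}.ncard : ℝ) ≤
      ({n : ℕ | n < c * L ∧ (c : ℤ) * u + (n : ℤ) ∈ N}.ncard : ℝ) := by exact_mod_cast h2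
    _ ≤ ε / c * ((c * L : ℕ) : ℝ) := h1
    _ = ε * L := by push_cast; field_simp

theorem null_biUnion {α : Type} {B : Set α} (hB : B.Finite) (f : α → Set ℤ)
    (h : ∀ b ∈ B, Null (f b)) : Null (⋃ b ∈ B, f b) := by
  induction B, hB using Set.Finite.induction_on with
  | empty =>
    rw [Set.biUnion_empty]
    exact Pool.Agent.W505.FN.nul.2.2.2.1
  | insert _ _ ih =>
    rw [Set.biUnion_insert]
    exact Pool.Agent.W505.FN.nul.2.2.1 _ _ (h _ (Set.mem_insert _ _))
      (ih fun b hb => h b (Set.mem_insert_of_mem _ hb))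

theorem m_abs {m : (ℤ →ᵇ ℝ) →ₗ[ℝ] ℝ} (hm : IsMean m) {f : ℤ →ᵇ ℝ} {C : ℝ} (h : ∀ n, |f n| ≤ C) :
    |m f| ≤ C := by
  have h1 := m_toB_abs hm (g := fun n => f n) h
  rwa [toB_coe] at h1

/-- the product of the first `k` indicator functions -/
noncomputable def GG (V : Set ℤ) (c : ℕ → ℕ) (k : ℕ) (a : ℕ → ℤ) : ℤ →ᵇ ℝ :=
  ∏ i ∈ range k, sh (-(c i * a i)) (ind V)

theorem one : S_one := by
  intro m hm V P ε hε hA β hβ n c hc δ hδ
  obtain ⟨hPt, hP01, happ⟩ := hA
  have hP : Tr01 P := ⟨hPt, hP01⟩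
  have hnet := fun k => net_prod hβ hP (Ico (k + 1) n) δ hδ
  choose B hBf hB01 hBn using hnet
  have hG1 : ∀ k a t, |GG V c k a t| ≤ 1 := by
    intro k a t
    unfold GG
    rw [prod_apply, abs_prod]
    apply prod_le_one (fun i _ => abs_nonneg _)
    intro i _
    rw [sh_apply]
    have := ind_01 V (t + -(c i * a i))
    rw [abs_of_nonneg this.1]
    exact this.2
  have hIP : ∀ t, |(ind V - P) t| ≤ 1 := by
    intro t
    have h1 := ind_01 V t
    have h2 := hP01 t
    rw [BoundedContinuousFunction.coe_sub, Pi.sub_apply, abs_le]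
    constructor <;> linarith [h1.1, h1.2, h2.1, h2.2]
  refine ⟨fun k a => ⋃ b ∈ B k, {x : ℤ | ε < |m (b * (ind V - P) * sh (c k * x) (GG V c k a))|},
    ?_, ?_, ?_⟩
  · intro k a
    apply null_biUnion (hBf k)
    intro b hb
    have h1 := happ b (hB01 k b hb).1 (fun t => by
      have := (hB01 k b hb).2 t
      rw [abs_of_nonneg this.1]
      exact this.2) (GG V c k a) (hG1 k a)
    exact null_mul h1 (hc k)
  · intro k a b hab
    have : GG V c k a = GG V c k b := by
      unfold GG
      refine prod_congr rfl fun i hi => ?_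
      rw [hab i (mem_range.mp hi)]
    simp only [this]
  · intro a ha
    set F : ℕ → (ℤ →ᵇ ℝ) := fun i => sh (-(c i * a i)) (ind V) with hF
    set Q : ℕ → (ℤ →ᵇ ℝ) := fun i => sh (-(c i * a i)) P with hQ
    set H : ℕ → (ℤ →ᵇ ℝ) := fun k => β * (∏ i ∈ range k, F i) * ∏ i ∈ Ico k n, Q i with hH
    have step : ∀ k < n, |m (H (k + 1)) - m (H k)| ≤ ε + δ := by
      intro k hk
      have e1 : H (k + 1) - H k =
          (β * ∏ i ∈ Ico (k + 1) n, Q i) * (F k - Q k) * GG V c k a := by
        have e2 : ∏ i ∈ Ico k n, Q i = Q k * ∏ i ∈ Ico (k + 1) n, Q i :=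
          Finset.prod_eq_prod_Ico_succ_bot hk _
        simp only [hH]
        rw [prod_range_succ, e2]
        have e3 : GG V c k a = ∏ i ∈ range k, F i := rfl
        rw [e3]
        ring
      have e4 : m (H (k + 1)) - m (H k) = m ((sh (c k * a k) β *
          ∏ i ∈ Ico (k + 1) n, sh (c k * a k + -(c i * a i)) P) * (ind V - P) *
            sh (c k * a k) (GG V c k a)) := by
        rw [← map_sub, e1, ← m_sh hm (c k * a k)]
        congr 1
        rw [sh_mul, sh_mul, sh_mul, sh_sub, sh_prod]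
        have e5 : sh (c k * a k) (F k) = ind V := by
          simp only [hF]
          rw [sh_sh, add_neg_cancel, sh_zero]
        have e6 : sh (c k * a k) (Q k) = P := by
          simp only [hQ]
          rw [sh_sh, add_neg_cancel, sh_zero]
        rw [e5, e6]
        congr 3
        refine prod_congr rfl fun i _ => ?_
        simp only [hQ]
        rw [sh_sh]
      obtain ⟨b, hb, hbt⟩ := hBn k (c k * a k) (fun i => c k * a k + -(c i * a i))
      set BB := sh (c k * a k) β * ∏ i ∈ Ico (k + 1) n, sh (c k * a k + -(c i * a i)) P with hBB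
      have hna := ha k hk
      simp only [Set.mem_iUnion, not_exists] at hna
      have h1 := hna b hb
      have h2 : |m (b * (ind V - P) * sh (c k * a k) (GG V c k a))| ≤ ε := not_lt.mp h1
      have h3 : |m ((BB - b) * (ind V - P) * sh (c k * a k) (GG V c k a))| ≤ δ := by
        apply m_abs hm
        intro t
        rw [BoundedContinuousFunction.coe_mul, Pi.mul_apply, BoundedContinuousFunction.coe_mul,
          Pi.mul_apply, abs_mul, abs_mul, sh_apply]
        have k1 : |(BB - b) t| ≤ δ := by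
          rw [BoundedContinuousFunction.coe_sub, Pi.sub_apply]
          exact hbt t
        have k2 := hIP t
        have k3 := hG1 k a (t + c k * a k)
        calc |(BB - b) t| * |(ind V - P) t| * |GG V c k a (t + c k * a k)| ≤ δ * 1 * 1 :=
              mul_le_mul (mul_le_mul k1 k2 (abs_nonneg _) hδ.le) k3 (abs_nonneg _)
                (by positivity)
          _ = δ := by ring
      have e7 : m (BB * (ind V - P) * sh (c k * a k) (GG V c k a)) =
          m (b * (ind V - P) * sh (c k * a k) (GG V c k a)) +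
          m ((BB - b) * (ind V - P) * sh (c k * a k) (GG V c k a)) := by
        rw [← map_add]
        congr 1
        ring
      rw [e4, e7]
      exact (abs_add_le _ _).trans (add_le_add h2 h3)
    have tot : ∀ k ≤ n, |m (H k) - m (H 0)| ≤ k * (ε + δ) := by
      intro k
      induction k with
      | zero => intro _; simp
      | succ k ih =>
        intro hk
        have h1 := ih (by omega)
        have h2 := step k (by omega)
        have e : m (H (k + 1)) - m (H 0) = (m (H (k + 1)) - m (H k)) + (m (H k) - m (H 0)) := by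
          ring
        rw [e]
        refine (abs_add_le _ _).trans ?_
        push_cast
        linarith
    have hfin := tot n le_rfl
    have r1 : toB (fun t => β t * ∏ i ∈ range n, ind V (t - c i * a i)) = H n := by
      apply toB_eq (C := 1)
      · intro t
        rw [abs_mul, abs_prod]
        have h1 := hβ.2 t
        have h2 : ∏ i ∈ range n, |ind V (t - c i * a i)| ≤ 1 := by
          apply prod_le_one (fun i _ => abs_nonneg _)
          intro i _
          have := ind_01 V (t - c i * a i)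
          rw [abs_of_nonneg this.1]
          exact this.2
        rw [abs_of_nonneg h1.1]
        exact mul_le_one₀ h1.2 (prod_nonneg fun i _ => abs_nonneg _) h2
      · intro t
        simp only [hH, Ico_self, prod_empty, mul_one]
        rw [BoundedContinuousFunction.coe_mul, Pi.mul_apply, prod_apply]
        rfl
    have r2 : toB (fun t => β t * ∏ i ∈ range n, P (t - c i * a i)) = H 0 := by
      apply toB_eq (C := 1)
      · intro t
        rw [abs_mul, abs_prod]
        have h1 := hβ.2 t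
        have h2 : ∏ i ∈ range n, |P (t - c i * a i)| ≤ 1 := by
          apply prod_le_one (fun i _ => abs_nonneg _)
          intro i _
          have := hP01 (t - c i * a i)
          rw [abs_of_nonneg this.1]
          exact this.2
        rw [abs_of_nonneg h1.1]
        exact mul_le_one₀ h1.2 (prod_nonneg fun i _ => abs_nonneg _) h2
      · intro t
        simp only [hH, range_zero, prod_empty, mul_one, ← range_eq_Ico]
        rw [BoundedContinuousFunction.coe_mul, Pi.mul_apply, prod_apply]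
        rfl
    rw [r1, r2]
    exact hfin

end Pool.Agent.W91.TF
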